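import Mathlib
import Pool.Agent.H22.Harborth

namespace Pool.Agent.Results.MP_82795f_nt.FortyTwo

open Pool.Agent.H22.Harborth

/-- Q2 fails: `514 = 2 * 257` is not in `K_42`, because `12` does not divide `choose 12 10`. -/
theorem result : ¬ ∀ c : ℕ, 0 < c → 3 ∣ c → ∀ k, InS k → InK c k := by
  intro h
  have := (h 42 (by norm_num) (by norm_num) 514 ⟨3, by norm_num, by norm_num, by norm_num⟩).2 12
    (by norm_num) (by norm_num)
  revert this
  decide

end Pool.Agent.Results.MP_82795f_nt.FortyTwo
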