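import Mathlib
import Pool.Agent.H22.Harborth

namespace Pool.Agent.Results.MP_82795f_nt.Mersenne

open Pool.Agent.H22.Harborth

theorem no_carry (x y : ℕ) (h : ¬ 2 ∣ (x + y).choose y) (i : ℕ) :
    y % 2 ^ i ≤ (x + y) % 2 ^ i := by
  have h1 : y % 2 ^ i + x % 2 ^ i < 2 ^ i := by
    by_contra hc
    push Not at hc
    have hi : 1 ≤ i := by
      by_contra h0
      obtain rfl : i = 0 := by omega
      simp [Nat.mod_one] at hc
    have h2 := Nat.Prime.emultiplicity_choose' (p := 2) (n := x) (k := y)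
      (b := Nat.log 2 (x + y) + i + 1) Nat.prime_two (by omega)
    rw [emultiplicity_eq_zero.2 h] at h2
    have h3 : (Finset.filter (fun i => 2 ^ i ≤ y % 2 ^ i + x % 2 ^ i)
        (Finset.Ico 1 (Nat.log 2 (x + y) + i + 1))).card = 0 := by exact_mod_cast h2.symm
    rw [Finset.card_eq_zero, Finset.filter_eq_empty_iff] at h3
    exact h3 (Finset.mem_Ico.2 ⟨hi, by omega⟩) hc
  rw [Nat.add_mod, Nat.mod_eq_of_lt (a := x % 2 ^ i + y % 2 ^ i) (by omega)]
  omega

theorem odd_mod (a M : ℕ) (hM : 0 < M) : (2 * a + 1) % (2 * M) = 2 * (a % M) + 1 := by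
  have h := Nat.mod_lt a hM
  conv_lhs => rw [← Nat.div_add_mod a M,
    show 2 * (M * (a / M) + a % M) + 1 = 2 * M * (a / M) + (2 * (a % M) + 1) by ring]
  rw [Nat.mul_add_mod, Nat.mod_eq_of_lt (by omega)]

theorem succ_mod (w M : ℕ) (hM : 0 < M) :
    (w + 1) % M = w % M + 1 ∨ ((w + 1) % M = 0 ∧ w % M + 1 = M) := by
  have h := Nat.mod_lt w hM
  rw [← Nat.mod_add_mod]
  rcases Nat.lt_or_ge (w % M + 1) M with h1 | h1
  · exact Or.inl (Nat.mod_eq_of_lt h1)
  · have : w % M + 1 = M := by omega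
    exact Or.inr ⟨by rw [this, Nat.mod_self], this⟩

theorem shift_mod (t N u w i : ℕ) (h : 2 ^ t * u = 2 ^ N + 1 + w) (hi : i ≤ N) :
    (w + 1) % 2 ^ i = (2 ^ t * u) % 2 ^ i := by
  obtain ⟨k, rfl⟩ := Nat.exists_eq_add_of_le hi
  rw [h, pow_add, add_assoc, Nat.mul_add_mod, add_comm]

theorem even_case (t N v w : ℕ) (ht : 1 ≤ t) (h : 2 ^ t * (v + 1) = 2 ^ N + 1 + w)
    (hc : ∀ i, w % 2 ^ i ≤ v % 2 ^ i) : 2 ^ N ∣ v + 1 := by
  have key : ∀ i, i ≤ N → 2 ^ i ∣ v + 1 := by
    intro i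
    induction i with
    | zero => simp
    | succ i ih =>
      intro hi
      have h1 : 2 ^ (i + 1) ∣ 2 ^ t * (v + 1) := by
        rw [pow_succ']
        exact mul_dvd_mul (dvd_pow_self 2 (by omega)) (ih (by omega))
      have h2 := shift_mod t N _ w (i + 1) h hi
      rw [Nat.mod_eq_zero_of_dvd h1] at h2
      have hM : 0 < 2 ^ (i + 1) := by positivity
      have h3 := succ_mod w _ hM
      have h4 := succ_mod v _ hM
      have h5 := hc (i + 1)
      have h6 := Nat.mod_lt v hM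
      have h7 := Nat.mod_lt (v + 1) hM
      exact Nat.dvd_of_mod_eq_zero (by omega)
  exact key N le_rfl

theorem odd_case (t N u w : ℕ) (ht : 3 ≤ t) (htN : t ≤ N) (h : 2 ^ t * u = 2 ^ N + 1 + w)
    (hc : ∀ i, w % 2 ^ i ≤ u % 2 ^ i) : 3 * 2 ^ N + 1 + u ≤ 2 ^ t * u := by
  have hT : 8 ≤ 2 ^ t := by
    calc 8 = 2 ^ 3 := by norm_num
      _ ≤ 2 ^ t := Nat.pow_le_pow_right (by norm_num) ht
  have key : ∀ i, 1 ≤ i → i ≤ N → 3 * 2 ^ i + 1 + u % 2 ^ i ≤ 2 ^ t * (u % 2 ^ i) := by
    intro i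
    induction i using Nat.strong_induction_on with
    | _ i ih =>
      intro h1 hi
      have h2 := shift_mod t N u w i h hi
      have hM : 0 < 2 ^ i := by positivity
      have h3 := succ_mod w _ hM
      have h5 := hc i
      have h6 := Nat.mod_lt u hM
      rcases le_or_gt i t with hit | hit
      · rw [Nat.mod_eq_zero_of_dvd ((pow_dvd_pow 2 hit).mul_right u)] at h2
        have h7 : u % 2 ^ i + 1 = 2 ^ i := by omega
        have h8 : 2 ≤ 2 ^ i := by
          calc 2 = 2 ^ 1 := by norm_num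
            _ ≤ 2 ^ i := Nat.pow_le_pow_right (by norm_num) h1
        have h9 := Nat.mul_le_mul_right (u % 2 ^ i) hT
        omega
      · obtain ⟨k, rfl⟩ := Nat.exists_eq_add_of_le hit.le
        have h7 := ih k (by omega) (by omega) (by omega)
        have h8 : (2 ^ t * u) % 2 ^ (t + k) = 2 ^ t * (u % 2 ^ k) := by
          rw [pow_add, Nat.mul_mod_mul_left]
        rw [h8] at h2
        have h9 : 2 ^ t * (u % 2 ^ k) ≤ u % 2 ^ (t + k) + 1 := by omega
        rw [pow_add] at h9 ⊢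
        generalize u % (2 ^ t * 2 ^ k) = A at *
        generalize u % 2 ^ k = B at *
        generalize 2 ^ k = K at *
        obtain ⟨T, hT'⟩ : ∃ T, 2 ^ t = T + 1 := ⟨2 ^ t - 1, by omega⟩
        rw [hT'] at h7 h9 ⊢
        have a1 : 3 * K + 1 ≤ T * B := by nlinarith
        have a2 := Nat.mul_le_mul_left T h9
        have a3 := Nat.mul_le_mul_left (T + 1) a1
        nlinarith
  have h1 := key N (by omega) le_rfl
  have h2 := Nat.mod_le u (2 ^ N)
  obtain ⟨e, he⟩ := Nat.exists_eq_add_of_le h2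
  generalize u % 2 ^ N = A at *
  subst he
  nlinarith

theorem dvd_mul_choose (n j : ℕ) : n ∣ j * n.choose j := by
  rcases n with _ | n
  · rcases j with _ | j <;> simp
  rcases j with _ | j
  · simp
  rw [mul_comm, ← Nat.add_one_mul_choose_eq]
  exact dvd_mul_right _ _

theorem main (t N : ℕ) (ht : 3 ≤ t) (hN : 2 ≤ N) (hq : (2 ^ N + 1).Prime) :
    InK (2 ^ t - 1) (2 * (2 ^ N + 1)) := by
  refine ⟨by positivity, fun n h1 h2 => ?_⟩
  have hT : 8 ≤ 2 ^ t := by
    calc 8 = 2 ^ 3 := by norm_num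
      _ ≤ 2 ^ t := Nat.pow_le_pow_right (by norm_num) ht
  obtain ⟨c, hc⟩ : ∃ c, 2 ^ t = c + 1 := ⟨2 ^ t - 1, by omega⟩
  rw [hc, Nat.add_sub_cancel] at h1 h2 ⊢
  obtain ⟨j, hj⟩ := Nat.exists_eq_add_of_le h2
  rw [hj, Nat.add_sub_cancel_left]
  have h7 : 7 * n ≤ c * n := Nat.mul_le_mul_right _ (by omega)
  have hn : 0 < n := by
    rcases n with _ | n
    · simp at h1
    · omega
  have hcop : ∀ a, 0 < a → a ≤ n → Nat.Coprime a (2 ^ N + 1) := fun a ha han =>
    ((Nat.Prime.coprime_iff_not_dvd hq).2 fun h => by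
      have := Nat.le_of_dvd ha h
      omega).symm
  rcases Nat.even_or_odd' n with ⟨u, rfl | rfl⟩
  swap
  · have h3 : Nat.Coprime (2 * u + 1) (2 * (2 ^ N + 1)) :=
      Nat.Coprime.mul_right (by simp) (hcop _ hn le_rfl)
    rw [hj, Nat.coprime_mul_right_add_right] at h3
    exact h3.dvd_of_dvd_mul_left (dvd_mul_choose _ _)
  obtain ⟨j, rfl⟩ : ∃ j', j = 2 * j' := ⟨2 ^ N + 1 - c * u, by
    rw [← mul_assoc, mul_comm c 2, mul_assoc] at hj
    omega⟩
  have hj' : 2 ^ N + 1 = c * u + j := by nlinarith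
  obtain ⟨w, rfl⟩ : ∃ w, u = j + w := Nat.exists_eq_add_of_le (by nlinarith)
  have hw : 2 ^ t * (j + w) = 2 ^ N + 1 + w := by rw [hc, hj']; ring
  have h3 : Nat.Coprime (j + w) j := by
    have := hcop (j + w) (by omega) (by omega)
    rwa [hj', Nat.coprime_mul_right_add_right] at this
  have h8 : 7 * (j + w) ≤ 2 ^ N + 1 := by omega
  rcases Nat.even_or_odd' (j + w) with ⟨v, hv | hv⟩
  · have hodd : j % 2 = 1 := by
      by_contra h
      have h4 : 2 ∣ Nat.gcd (j + w) j := Nat.dvd_gcd ⟨v, hv⟩ (by omega)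
      rw [h3] at h4
      omega
    obtain ⟨i, rfl⟩ : ∃ i, j = i + 1 := ⟨j - 1, by omega⟩
    have h4 : 2 ∣ ((2 * i + 1) + 2 * w).choose (2 * w) := by
      by_contra h
      have h5 := even_case t N (i + w) w (by omega) (by rw [← hw]; ring) (fun k => by
        have := no_carry _ _ h (k + 1)
        rw [pow_succ', Nat.mul_mod_mul_left, show 2 * i + 1 + 2 * w = 2 * (i + w) + 1 by ring,
          odd_mod _ _ (by positivity)] at this
        omega)
      have := Nat.le_of_dvd (by omega) h5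
      omega
    have h5 := Nat.add_one_mul_choose_eq (2 * i + 1 + 2 * w) (2 * i + 1)
    rw [Nat.choose_symm_add] at h5
    obtain ⟨e, he⟩ := h4
    rw [he, show 2 * i + 1 + 2 * w + 1 = 2 * (i + 1 + w) by ring,
      show 2 * i + 1 + 1 = 2 * (i + 1) by ring] at h5
    have h6 : Nat.Coprime (2 * (i + 1 + w)) (i + 1) :=
      Nat.Coprime.mul_left ((Nat.coprime_two_left).2 (Nat.odd_iff.2 hodd)) h3
    exact h6.dvd_of_dvd_mul_left ⟨e, by nlinarith⟩
  · have h4 : 2 ∣ (2 * j + 2 * w).choose (2 * w) := by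
      by_contra h
      have htN : t ≤ N := by
        by_contra hlt
        have h9 : 2 ^ (N + 1) ≤ 2 ^ t := Nat.pow_le_pow_right (by norm_num) (by omega)
        have h10 : 4 ≤ 2 ^ N := by
          calc 4 = 2 ^ 2 := by norm_num
            _ ≤ 2 ^ N := Nat.pow_le_pow_right (by norm_num) hN
        have h11 : c * 1 ≤ c * (j + w) := Nat.mul_le_mul_left _ (by omega)
        rw [pow_succ] at h9
        omega
      have h5 := odd_case t N (j + w) w ht htN hw (fun k => by
        have := no_carry _ _ h (k + 1)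
        rw [pow_succ', Nat.mul_mod_mul_left, ← mul_add, Nat.mul_mod_mul_left] at this
        omega)
      omega
    rw [← Nat.choose_symm_add, ← mul_add] at h4
    have h5 : j + w ∣ (2 * (j + w)).choose (2 * j) := by
      apply h3.dvd_of_dvd_mul_left
      have := dvd_mul_choose (2 * (j + w)) (2 * j)
      rw [mul_assoc] at this
      exact Nat.dvd_of_mul_dvd_mul_left (by norm_num) this
    exact Nat.Coprime.mul_dvd_of_dvd_of_dvd ((Nat.coprime_two_left).2 ⟨v, hv⟩) h4 h5

/-- Q1 holds: every `c = 2 ^ t - 1` with `t ≥ 3` works. -/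
theorem result : Set.Infinite {c : ℕ | 2 ≤ c ∧ ∀ k, InS k → InK c k} := by
  refine Set.infinite_of_injective_forall_mem (f := fun t : ℕ => 2 ^ (t + 3) - 1) ?_ ?_
  · intro a b h
    have ha : 0 < 2 ^ (a + 3) := by positivity
    have hb : 0 < 2 ^ (b + 3) := by positivity
    have h1 : 2 ^ (a + 3) = 2 ^ (b + 3) := by
      simp only at h
      omega
    have := Nat.pow_right_injective (le_refl 2) h1
    omega
  · intro t
    refine ⟨?_, ?_⟩
    · have : 0 < 2 ^ t := by positivity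
      rw [pow_add]
      omega
    · rintro k ⟨m, hp, h3, rfl⟩
      refine main (t + 3) (2 ^ m) (by omega) ?_ hp
      rcases m with _ | m
      · simp at h3
      · have : 0 < 2 ^ m := by positivity
        rw [pow_succ]
        omega

end Pool.Agent.Results.MP_82795f_nt.Mersenne
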